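import Mathlib

/-!
# MP_140fc6_an: a finite-point characterisation of weakly octahedral norms

A nonzero real Banach space is weakly octahedral if and only if it has property (P).
-/

set_option autoImplicit false

open Set Metric

namespace Pool.Agent.Results.MP_140fc6_an.FinitePoints

/-- `X` is weakly octahedral. -/
def WeaklyOctahedral (X : Type*) [NormedAddCommGroup X] [NormedSpace ℝ X] : Prop :=
  ∀ E : Submodule ℝ X, FiniteDimensional ℝ E → ∀ f : StrongDual ℝ X, ‖f‖ ≤ 1 →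
    ∀ ε : ℝ, 0 < ε → ∃ y : X, ‖y‖ = 1 ∧ ∀ x ∈ E, (1 - ε) * (|f x| + ‖y‖) ≤ ‖x + y‖

/-- Property (P): the inequality at finitely many points of the unit sphere. -/
def PropertyP (X : Type*) [NormedAddCommGroup X] [NormedSpace ℝ X] : Prop :=
  ∀ ε : ℝ, 0 < ε → ∀ n : ℕ, 1 ≤ n → ∀ x : Fin n → X, (∀ i, ‖x i‖ = 1) →
    ∀ f : StrongDual ℝ X, ‖f‖ ≤ 1 →
      ∃ y : X, ‖y‖ = 1 ∧ ∀ i, (1 - ε) * (|f (x i)| + 1) ≤ ‖x i + y‖

variable {X : Type*} [NormedAddCommGroup X] [NormedSpace ℝ X]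

theorem propertyP_of_woh (h : WeaklyOctahedral X) : PropertyP X := by
  intro ε hε n _ x _ f hf
  have hfd : FiniteDimensional ℝ (Submodule.span ℝ (Set.range x)) :=
    FiniteDimensional.span_of_finite ℝ (Set.finite_range x)
  obtain ⟨y, hy, h2⟩ := h (Submodule.span ℝ (Set.range x)) hfd f hf ε hε
  refine ⟨y, hy, fun i => ?_⟩
  have := h2 (x i) (Submodule.subset_span ⟨i, rfl⟩)
  rwa [hy] at this

theorem PropertyP.finset (h : PropertyP X) {ε : ℝ} (hε : 0 < ε) (W : Set X) (hW : W.Finite)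
    (hne : W.Nonempty) (h1 : ∀ w ∈ W, ‖w‖ = 1) (f : StrongDual ℝ X) (hf : ‖f‖ ≤ 1) :
    ∃ y : X, ‖y‖ = 1 ∧ ∀ w ∈ W, (1 - ε) * (|f w| + 1) ≤ ‖w + y‖ := by
  classical
  have hne' : hW.toFinset.Nonempty := by simpa using hne
  have hcard : 1 ≤ hW.toFinset.card := hne'.card_pos
  let e := hW.toFinset.equivFin
  obtain ⟨y, hy, h2⟩ := h ε hε hW.toFinset.card hcard (fun i => (e.symm i : X))
    (fun i => h1 _ (hW.mem_toFinset.1 (e.symm i).2)) f hf
  refine ⟨y, hy, fun w hw => ?_⟩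
  have := h2 (e ⟨w, by simpa using hw⟩)
  simpa using this

/-- property (P) fails in finite-dimensional spaces -/
theorem PropertyP.not_fd [Nontrivial X] (h : PropertyP X) : ¬ FiniteDimensional ℝ X := by
  intro hfd
  haveI : ProperSpace X := FiniteDimensional.proper ℝ X
  obtain ⟨t, ht, htf, hcov⟩ := (isCompact_sphere (0 : X) 1).finite_cover_balls
    (e := (1 / 4 : ℝ)) (by norm_num)
  obtain ⟨u, hu⟩ : ∃ u : X, ‖u‖ = 1 := exists_norm_eq X zero_le_one
  have hne : t.Nonempty := by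
    have := hcov (show u ∈ sphere (0 : X) 1 by simpa using hu)
    simp only [mem_iUnion] at this
    obtain ⟨v, hv, -⟩ := this
    exact ⟨v, hv⟩
  obtain ⟨y, hy, h2⟩ := h.finset (ε := 1 / 4) (by norm_num) t htf hne
    (fun w hw => by simpa using ht hw) 0 (by simp)
  have := hcov (show -y ∈ sphere (0 : X) 1 by simpa using hy)
  simp only [mem_iUnion] at this
  obtain ⟨v, hv, hv2⟩ := this
  have h3 := h2 v hv
  rw [mem_ball, dist_eq_norm] at hv2
  have h4 : ‖v + y‖ = ‖-y - v‖ := by rw [← norm_neg]; congr 1; abel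
  rw [h4] at h3
  simp at h3
  linarith

/-- a functional of norm at most one agrees on a finite-dimensional subspace with one of norm one -/
theorem exists_norm_one (hinf : ¬ FiniteDimensional ℝ X) (E : Submodule ℝ X)
    [FiniteDimensional ℝ E] (f : StrongDual ℝ X) (hf : ‖f‖ ≤ 1) :
    ∃ g : StrongDual ℝ X, ‖g‖ = 1 ∧ ∀ x ∈ E, g x = f x := by
  have hE : IsClosed (E : Set X) := E.closed_of_finiteDimensional
  have hne : E ≠ ⊤ := by
    rintro rfl
    exact hinf (Module.Finite.of_surjective (Submodule.subtype (⊤ : Submodule ℝ X))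
      (fun x => ⟨⟨x, trivial⟩, rfl⟩))
  obtain ⟨v, hv⟩ : ∃ v : X, v ∉ E := by
    by_contra hcon
    push Not at hcon
    exact hne (eq_top_iff.2 fun x _ => hcon x)
  -- a nonzero functional vanishing on `E`
  obtain ⟨h, hh0, hhE⟩ : ∃ h : StrongDual ℝ X, h ≠ 0 ∧ ∀ x ∈ E, h x = 0 := by
    haveI : IsClosed (E : Set X) := hE
    have hq : (E.mkQ v) ≠ 0 := by
      rw [Ne, Submodule.mkQ_apply, Submodule.Quotient.mk_eq_zero]
      exact hv
    obtain ⟨φ, _, hφ⟩ := exists_dual_vector ℝ (E.mkQ v) (norm_ne_zero_iff.2 hq)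
    refine ⟨φ.comp (Submodule.mkQL E), ?_, ?_⟩
    · intro h0
      have := congrArg (fun k : StrongDual ℝ X => k v) h0
      simp at this
      have h5 : φ (E.mkQ v) = 0 := this
      rw [hφ] at h5
      have : ‖E.mkQ v‖ = 0 := by simpa using h5
      exact hq (norm_eq_zero.1 this)
    · intro x hx
      have : E.mkQ x = 0 := by
        rw [Submodule.mkQ_apply, Submodule.Quotient.mk_eq_zero]; exact hx
      change φ (E.mkQ x) = 0
      rw [this, map_zero]
  have hhpos : 0 < ‖h‖ := norm_pos_iff.2 hh0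
  have hcont : ContinuousOn (fun t : ℝ => ‖f + t • h‖) (Icc 0 (2 / ‖h‖)) :=
    (by fun_prop : Continuous fun t : ℝ => ‖f + t • h‖).continuousOn
  have hle : (0 : ℝ) ≤ 2 / ‖h‖ := by positivity
  have hiv := intermediate_value_Icc hle hcont
  have hmem : (1 : ℝ) ∈ Icc (‖f + (0 : ℝ) • h‖) (‖f + (2 / ‖h‖) • h‖) := by
    constructor
    · simpa using hf
    · have h6 : ‖(2 / ‖h‖) • h‖ = 2 := by
        rw [norm_smul, Real.norm_of_nonneg hle]
        field_simp
      have h7 : ‖(2 / ‖h‖) • h‖ ≤ ‖f + (2 / ‖h‖) • h‖ + ‖f‖ := by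
        calc ‖(2 / ‖h‖) • h‖ = ‖(f + (2 / ‖h‖) • h) - f‖ := by congr 1; abel
          _ ≤ _ := norm_sub_le _ _
      linarith
  obtain ⟨t, _, ht⟩ := hiv hmem
  refine ⟨f + t • h, ht, fun x hx => ?_⟩
  simp [hhE x hx]

/-- the auxiliary unit vectors -/
theorem exists_aux (g : StrongDual ℝ X) (z : X) (hz : ‖z‖ = 1) {δ : ℝ}
    (hgz : 1 - δ ≤ g z) (hδ : δ ≤ 1) (x : X) (hx : ‖x‖ ≤ 1) :
    ∃ w : X, ‖w‖ = 1 ∧ ∃ μ : ℝ, 0 ≤ μ ∧ μ ≤ 2 ∧ ‖w - x‖ ≤ μ ∧ |g x| + μ * (1 - δ) ≤ |g w| := by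
  obtain ⟨s, hs, hsg⟩ : ∃ s : ℝ, |s| = 1 ∧ s * g x = |g x| := by
    rcases le_total 0 (g x) with h | h
    · exact ⟨1, by simp, by rw [one_mul, abs_of_nonneg h]⟩
    · exact ⟨-1, by simp, by rw [abs_of_nonpos h]; ring⟩
  have hcont : ContinuousOn (fun t : ℝ => ‖x + t • (s • z)‖) (Icc 0 2) :=
    (by fun_prop : Continuous fun t : ℝ => ‖x + t • (s • z)‖).continuousOn
  have hiv := intermediate_value_Icc (by norm_num : (0 : ℝ) ≤ 2) hcont
  have hsz : ‖s • z‖ = 1 := by rw [norm_smul, Real.norm_eq_abs, hs, hz, one_mul]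
  have hmem : (1 : ℝ) ∈ Icc (‖x + (0 : ℝ) • (s • z)‖) (‖x + (2 : ℝ) • (s • z)‖) := by
    constructor
    · simpa using hx
    · have h6 : ‖(2 : ℝ) • (s • z)‖ = 2 := by
        rw [norm_smul, hsz]; norm_num
      have h7 : ‖(2 : ℝ) • (s • z)‖ ≤ ‖x + (2 : ℝ) • (s • z)‖ + ‖x‖ := by
        calc ‖(2 : ℝ) • (s • z)‖ = ‖(x + (2 : ℝ) • (s • z)) - x‖ := by congr 1; abel
          _ ≤ _ := norm_sub_le _ _
      linarith
  obtain ⟨μ, ⟨hμ0, hμ2⟩, hμ⟩ := hiv hmem
  refine ⟨x + μ • (s • z), hμ, μ, hμ0, hμ2, ?_, ?_⟩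
  · rw [add_sub_cancel_left, norm_smul, hsz, Real.norm_of_nonneg hμ0, mul_one]
  · have hss : s * s = 1 := by
      have := abs_mul_abs_self s
      rw [hs] at this
      linarith
    have h1 : s * g (x + μ • (s • z)) = |g x| + μ * g z := by
      simp only [map_add, map_smul, smul_eq_mul]
      rw [mul_add, hsg]
      have : s * (μ * (s * g z)) = (s * s) * (μ * g z) := by ring
      rw [this, hss, one_mul]
    have h2 : s * g (x + μ • (s • z)) ≤ |g (x + μ • (s • z))| := by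
      calc s * g (x + μ • (s • z)) ≤ |s * g (x + μ • (s • z))| := le_abs_self _
        _ = |g (x + μ • (s • z))| := by rw [abs_mul, hs, one_mul]
    have h3 : μ * (1 - δ) ≤ μ * g z := mul_le_mul_of_nonneg_left hgz hμ0
    linarith

theorem woh_of_propertyP [Nontrivial X] (h : PropertyP X) : WeaklyOctahedral X := by
  intro E hE f hf ε hε
  haveI := hE
  obtain ⟨g, hg, hgf⟩ := exists_norm_one h.not_fd E f hf
  set δ : ℝ := min ε 1 / 32 with hδ
  have hδ0 : 0 < δ := by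
    have : 0 < min ε 1 := lt_min hε one_pos
    positivity
  have hδ1 : 32 * δ ≤ 1 := by
    have : min ε 1 ≤ 1 := min_le_right _ _
    rw [hδ]; linarith
  have hδε : 32 * δ ≤ ε := by
    have : min ε 1 ≤ ε := min_le_left _ _
    rw [hδ]; linarith
  -- an almost norming vector
  obtain ⟨z, hz, hgz⟩ : ∃ z : X, ‖z‖ = 1 ∧ 1 - δ ≤ g z := by
    obtain ⟨v, hv1, hv2⟩ := g.exists_lt_apply_of_lt_opNorm (r := 1 - δ) (by rw [hg]; linarith)
    have hv0 : v ≠ 0 := by
      rintro rfl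
      simp at hv2
      linarith
    have hvp : 0 < ‖v‖ := norm_pos_iff.2 hv0
    rw [Real.norm_eq_abs] at hv2
    obtain ⟨s, hs, hsg⟩ : ∃ s : ℝ, |s| = 1 ∧ s * g v = |g v| := by
      rcases le_total 0 (g v) with h | h
      · exact ⟨1, by simp, by rw [one_mul, abs_of_nonneg h]⟩
      · exact ⟨-1, by simp, by rw [abs_of_nonpos h]; ring⟩
    refine ⟨(s / ‖v‖) • v, ?_, ?_⟩
    · rw [norm_smul, Real.norm_eq_abs, abs_div, hs, abs_of_pos hvp]
      field_simp
    · rw [map_smul, smul_eq_mul]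
      have h1 : s / ‖v‖ * g v = |g v| / ‖v‖ := by rw [← hsg]; ring
      rw [h1, le_div_iff₀ hvp]
      nlinarith
  -- a finite net of the unit ball of `E`
  haveI : ProperSpace E := FiniteDimensional.proper ℝ E
  have hK : IsCompact ((fun x : E => (x : X)) '' closedBall (0 : E) 1) :=
    (isCompact_closedBall (0 : E) 1).image continuous_subtype_val
  obtain ⟨t, ht, htf, hcov⟩ := hK.finite_cover_balls hδ0
  have hKmem : ∀ x ∈ E, ‖x‖ ≤ 1 → x ∈ (fun x : E => (x : X)) '' closedBall (0 : E) 1 := by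
    intro x hx hx1
    exact ⟨⟨x, hx⟩, by simpa using hx1, rfl⟩
  have hnet : ∀ x ∈ E, ‖x‖ ≤ 1 → ∃ x0 ∈ t, ‖x - x0‖ < δ := by
    intro x hx hx1
    have := hcov (hKmem x hx hx1)
    simp only [mem_iUnion] at this
    obtain ⟨v, hv, hv2⟩ := this
    exact ⟨v, hv, by rwa [mem_ball, dist_eq_norm] at hv2⟩
  have htb : ∀ x ∈ t, ‖x‖ ≤ 1 := by
    intro x hx
    obtain ⟨v, hv, rfl⟩ := ht hx
    simpa using hv
  have haux : ∀ x : X, ∃ w : X, ‖x‖ ≤ 1 → ‖w‖ = 1 ∧ ∃ μ : ℝ, 0 ≤ μ ∧ μ ≤ 2 ∧ ‖w - x‖ ≤ μ ∧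
      |g x| + μ * (1 - δ) ≤ |g w| := by
    intro x
    by_cases hx : ‖x‖ ≤ 1
    · obtain ⟨w, hw⟩ := exists_aux g z hz hgz (by linarith) x hx
      exact ⟨w, fun _ => hw⟩
    · exact ⟨0, fun h => absurd h hx⟩
  choose w hw using haux
  have htne : t.Nonempty := by
    obtain ⟨x0, hx0, -⟩ := hnet 0 E.zero_mem (by simp)
    exact ⟨x0, hx0⟩
  obtain ⟨y, hy, hy2⟩ := h.finset (ε := δ) hδ0 (w '' t) (htf.image w) (htne.image w)
    (by rintro _ ⟨x, hx, rfl⟩; exact (hw x (htb x hx)).1) g hg.le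
  -- the inequality in the unit ball
  have hball : ∀ x ∈ E, ‖x‖ ≤ 1 → 1 + |g x| - 8 * δ ≤ ‖x + y‖ := by
    intro x hx hx1
    obtain ⟨x0, hx0, hd⟩ := hnet x hx hx1
    obtain ⟨hw1, μ, hμ0, hμ2, hμ3, hμ4⟩ := hw x0 (htb x0 hx0)
    have h1 := hy2 (w x0) ⟨x0, hx0, rfl⟩
    have h2 : ‖w x0 + y‖ ≤ ‖x + y‖ + μ + δ := by
      calc ‖w x0 + y‖ = ‖(x + y) + (w x0 - x0) - (x - x0)‖ := by congr 1; abel
        _ ≤ ‖(x + y) + (w x0 - x0)‖ + ‖x - x0‖ := norm_sub_le _ _
        _ ≤ ‖x + y‖ + ‖w x0 - x0‖ + ‖x - x0‖ := by gcongr; exact norm_add_le _ _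
        _ ≤ ‖x + y‖ + μ + δ := by gcongr
    have h3 : |g x| - δ ≤ |g x0| := by
      have h4 : |g (x - x0)| ≤ ‖x - x0‖ := by
        have := g.le_opNorm (x - x0)
        rwa [hg, one_mul, Real.norm_eq_abs] at this
      have h5 : |g x| ≤ |g x0| + |g (x - x0)| := by
        have : g x = g x0 + g (x - x0) := by simp
        rw [this]
        exact abs_add_le _ _
      linarith
    have h6 : |g x| ≤ 1 := by
      have := g.le_opNorm x
      rw [hg, one_mul, Real.norm_eq_abs] at this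
      linarith
    have h7 : (1 - δ) * (|g x| - δ + μ * (1 - δ) + 1) ≤ (1 - δ) * (|g (w x0)| + 1) := by
      apply mul_le_mul_of_nonneg_left _ (by linarith)
      linarith
    nlinarith [mul_nonneg hδ0.le (sub_nonneg.2 h6), mul_nonneg hδ0.le (sub_nonneg.2 hμ2),
      mul_nonneg (mul_nonneg hδ0.le hδ0.le) hμ0, mul_nonneg hδ0.le hδ0.le]
  refine ⟨y, hy, fun x hx => ?_⟩
  rw [hy, ← hgf x hx]
  have habs : 0 ≤ |g x| := abs_nonneg _
  rcases le_or_gt ‖x‖ 1 with hx1 | hx1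
  · have := hball x hx hx1
    nlinarith
  · set l := ‖x‖ with hl
    have hlp : 0 < l := by linarith
    have hu : ‖l⁻¹ • x‖ ≤ 1 := by
      rw [norm_smul, norm_inv, Real.norm_of_nonneg hlp.le, ← hl]
      field_simp
      exact le_refl _
    have h1 := hball (l⁻¹ • x) (E.smul_mem _ hx) hu
    have h2 : l * ‖l⁻¹ • x + y‖ ≤ ‖x + y‖ + (l - 1) := by
      have h3 : l • (l⁻¹ • x + y) = (x + y) + (l - 1) • y := by
        rw [smul_add, smul_inv_smul₀ hlp.ne', sub_smul, one_smul]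
        abel
      calc l * ‖l⁻¹ • x + y‖ = ‖l • (l⁻¹ • x + y)‖ := by
            rw [norm_smul, Real.norm_of_nonneg hlp.le]
        _ = ‖(x + y) + (l - 1) • y‖ := by rw [h3]
        _ ≤ ‖x + y‖ + ‖(l - 1) • y‖ := norm_add_le _ _
        _ = ‖x + y‖ + (l - 1) := by
            rw [norm_smul, Real.norm_of_nonneg (by linarith), hy, mul_one]
    have h4 : l * |g (l⁻¹ • x)| = |g x| := by
      rw [map_smul, smul_eq_mul, abs_mul, abs_inv, abs_of_pos hlp]
      field_simp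
    have h5 : 1 + |g x| - 8 * δ * l ≤ ‖x + y‖ := by
      have := mul_le_mul_of_nonneg_left h1 hlp.le
      nlinarith
    rcases le_or_gt l 4 with hl4 | hl4
    · nlinarith
    · rcases le_or_gt (l / 2) |g x| with hgl | hgl
      · nlinarith
      · have h6 : l - 1 ≤ ‖x + y‖ := by
          have : ‖x‖ ≤ ‖x + y‖ + ‖y‖ := by
            calc ‖x‖ = ‖(x + y) - y‖ := by congr 1; abel
              _ ≤ _ := norm_sub_le _ _
          rw [hy, ← hl] at this
          linarith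
        nlinarith

/-- A nonzero real Banach space is weakly octahedral if and only if it has property (P). -/
theorem result : ∀ (X : Type*) [NormedAddCommGroup X] [NormedSpace ℝ X] [CompleteSpace X]
    [Nontrivial X], WeaklyOctahedral X ↔ PropertyP X := by
  intro X _ _ _ _
  exact ⟨propertyP_of_woh, woh_of_propertyP⟩

end Pool.Agent.Results.MP_140fc6_an.FinitePoints
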